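import Pool.Agent.TH198.AT.Conv
import Pool.Agent.TH509.AT.F0
import Pool.Agent.TH891.AT.HEAT
import Pool.Agent.TH479.AT.STEIN

/-!
# AT-ONEPT: a minimiser among the one-point measures solves the fixed point equation
-/

set_option autoImplicit false

open MeasureTheory ProbabilityTheory Set Filter Topology

namespace Pool.TH638.AT

open Pool.TH198.AT Pool.TH509.AT

/-- the value of the functional at the one-point measure -/
noncomputable def RR (β h t : ℝ) : ℝ := Real.log 2 +
  E1 (fun z => Real.log (Real.cosh (h + √(2 * β ^ 2 * t) * z))) + β ^ 2 * (1 - t)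
    - β ^ 2 * (1 - t ^ 2) / 2

/-- `E sech²` -/
noncomputable def S2 (β h t : ℝ) : ℝ := E1 (fun z => sech (h + √(2 * β ^ 2 * t) * z) ^ 2)

lemma heat : St_HEAT := t_HEAT Pool.TH479.AT.t_STEIN

lemma RR_cont (β h : ℝ) : Continuous (RR β h) := by
  have h1 : Continuous fun p : ℝ × ℝ => E1 (fun y => Real.log (Real.cosh (p.1 + √p.2 * y))) :=
    (heat (fun x => Real.log (Real.cosh x)) _ _ C2b_lc).2
  have h2 : Continuous fun t : ℝ => ((h, 2 * β ^ 2 * t) : ℝ × ℝ) := by fun_prop
  have h3 : Continuous fun t : ℝ => E1 (fun z => Real.log (Real.cosh (h + √(2 * β ^ 2 * t) * z))) :=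
    h1.comp h2
  unfold RR
  exact ((continuous_const.add h3).add (by fun_prop)).sub (by fun_prop)

lemma S2_cont (β h : ℝ) : Continuous (S2 β h) := by
  have h1 : Continuous fun p : ℝ × ℝ => E1 (fun y => sech (p.1 + √p.2 * y) ^ 2) :=
    (heat (fun x => sech x ^ 2) _ _ C2b_s2).2
  have h2 : Continuous fun t : ℝ => ((h, 2 * β ^ 2 * t) : ℝ × ℝ) := by fun_prop
  have h3 : Continuous fun t : ℝ => E1 (fun z => sech (h + √(2 * β ^ 2 * t) * z) ^ 2) :=
    h1.comp h2
  exact h3

lemma RR_deriv {β : ℝ} (hβ : 0 < β) (h : ℝ) {t : ℝ} (ht : 0 < t) :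
    HasDerivAt (RR β h) (β ^ 2 * (S2 β h t - 1 + t)) t := by
  have h1 : HasDerivAt (fun v => E1 (fun y => Real.log (Real.cosh (h + √v * y))))
      (E1 (fun y => sech (h + √(2 * β ^ 2 * t) * y) ^ 2) / 2) (2 * β ^ 2 * t) :=
    (heat (fun x => Real.log (Real.cosh x)) _ _ C2b_lc).1 h (2 * β ^ 2 * t) (by positivity)
  have h2 : HasDerivAt (fun t : ℝ => 2 * β ^ 2 * t) (2 * β ^ 2) t := by
    simpa using (hasDerivAt_id t).const_mul (2 * β ^ 2)
  have h3 := HasDerivAt.comp t h1 h2
  have h4 : HasDerivAt (fun t : ℝ => β ^ 2 * (1 - t)) (β ^ 2 * (0 - 1)) t :=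
    ((hasDerivAt_const t (1 : ℝ)).sub (hasDerivAt_id t)).const_mul (β ^ 2)
  have h5 : HasDerivAt (fun t : ℝ => β ^ 2 * (1 - t ^ 2) / 2)
      (β ^ 2 * (0 - ((2 : ℕ) : ℝ) * t ^ (2 - 1)) / 2) t :=
    (((hasDerivAt_const t (1 : ℝ)).sub (hasDerivAt_pow 2 t)).const_mul (β ^ 2)).div_const 2
  have h6 := (((hasDerivAt_const t (Real.log 2)).add h3).add h4).sub h5
  have h7 : HasDerivAt (RR β h) _ t := h6
  refine h7.congr_deriv ?_
  unfold S2
  rw [show (2 - 1 : ℕ) = 1 from rfl, pow_one]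
  push_cast
  ring

lemma int_s2 (h σ : ℝ) : Integrable (fun z => sech (h + σ * z) ^ 2) (gaussianReal 0 1) := by
  refine Integrable.mono' (g := fun _ => (1 : ℝ)) (integrable_const _) ?_ ?_
  · exact ((cont_sech.comp (by fun_prop : Continuous fun z : ℝ => h + σ * z)).pow 2).aestronglyMeasurable
  · refine Eventually.of_forall fun z => ?_
    rw [Real.norm_eq_abs, abs_of_nonneg (sq_nonneg _)]
    exact pow_le_one₀ (sech_pos _).le (sech_le_one _)

lemma tanh_eq (β h t : ℝ) :
    E1 (fun z => Real.tanh (h + √(2 * β ^ 2 * t) * z) ^ 2) = 1 - S2 β h t := by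
  have h1 : (fun z => Real.tanh (h + √(2 * β ^ 2 * t) * z) ^ 2) =
      fun z => 1 - sech (h + √(2 * β ^ 2 * t) * z) ^ 2 := by
    funext z
    have := sech_tanh (h + √(2 * β ^ 2 * t) * z)
    linarith
  rw [h1]
  unfold S2 E1
  rw [integral_sub (integrable_const _) (int_s2 _ _)]
  simp

lemma S2_pos (β h t : ℝ) : 0 < S2 β h t := by
  unfold S2 E1
  rw [integral_pos_iff_support_of_nonneg (fun z => sq_nonneg _) (int_s2 _ _)]
  have h1 : Function.support (fun z => sech (h + √(2 * β ^ 2 * t) * z) ^ 2) = univ := by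
    ext z
    simp only [Function.mem_support, mem_univ, iff_true]
    exact pow_ne_zero 2 (sech_pos _).ne'
  rw [h1]
  simp

lemma S2_zero_le (β h : ℝ) : S2 β h 0 ≤ 1 := by
  unfold S2
  have h0 : √(2 * β ^ 2 * 0) = 0 := by simp
  simp only [h0, zero_mul, add_zero]
  rw [E1_const]
  exact pow_le_one₀ (sech_pos _).le (sech_le_one _)

theorem t_ONEPT (hV : St_VAL) : St_ONEPT := by
  intro β h q hβ hq0 hq1 hmin
  have hval : ∀ t : ℝ, 0 ≤ t → t ≤ 1 → PF β h (one t) (f0 β t) = RR β h t := fun t h0 h1 =>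
    hV.1 β h t hβ h0 h1
  have hm : ∀ t : ℝ, 0 ≤ t → t ≤ 1 → RR β h q ≤ RR β h t := by
    intro t h0 h1
    rw [← hval q hq0 hq1, ← hval t h0 h1]
    exact hmin t h0 h1
  have hβ2 : 0 < β ^ 2 := by positivity
  have hDc : Continuous fun t => S2 β h t - 1 + t := ((S2_cont β h).sub continuous_const).add
    continuous_id
  have hA : 0 < q → S2 β h q - 1 + q ≤ 0 := by
    intro hq
    by_contra hneg
    push Not at hneg
    obtain ⟨ε, hε, H⟩ := Metric.mem_nhds_iff.1 ((isOpen_lt continuous_const hDc).mem_nhds hneg)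
    have hlt : max 0 (q - ε) < q := max_lt hq (by linarith)
    obtain ⟨c, hc, he⟩ := exists_hasDerivAt_eq_slope (RR β h)
      (fun t => β ^ 2 * (S2 β h t - 1 + t)) hlt (RR_cont β h).continuousOn
      (fun x hx => RR_deriv hβ h ((le_max_left _ _).trans_lt hx.1))
    have h1 : 0 < S2 β h c - 1 + c := by
      refine H (Metric.mem_ball.2 ?_)
      rw [Real.dist_eq, abs_lt]
      have := (le_max_right 0 (q - ε)).trans_lt hc.1
      exact ⟨by linarith, by linarith [hc.2]⟩
    have h2 : (RR β h q - RR β h (max 0 (q - ε))) / (q - max 0 (q - ε)) ≤ 0 :=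
      div_nonpos_of_nonpos_of_nonneg
        (by linarith [hm (max 0 (q - ε)) (le_max_left _ _) (hlt.le.trans hq1)]) (by linarith)
    rw [← he] at h2
    have h3 : 0 < β ^ 2 * (S2 β h c - 1 + c) := mul_pos hβ2 h1
    linarith
  have hB : q < 1 → 0 ≤ S2 β h q - 1 + q := by
    intro hq
    by_contra hneg
    push Not at hneg
    obtain ⟨ε, hε, H⟩ := Metric.mem_nhds_iff.1 ((isOpen_lt hDc continuous_const).mem_nhds hneg)
    have hlt : q < min 1 (q + ε) := lt_min hq (by linarith)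
    obtain ⟨c, hc, he⟩ := exists_hasDerivAt_eq_slope (RR β h)
      (fun t => β ^ 2 * (S2 β h t - 1 + t)) hlt (RR_cont β h).continuousOn
      (fun x hx => RR_deriv hβ h (hq0.trans_lt hx.1))
    have h1 : S2 β h c - 1 + c < 0 := by
      refine H (Metric.mem_ball.2 ?_)
      rw [Real.dist_eq, abs_lt]
      have := hc.2.trans_le (min_le_right 1 (q + ε))
      exact ⟨by linarith [hc.1], by linarith⟩
    have h2 : 0 ≤ (RR β h (min 1 (q + ε)) - RR β h q) / (min 1 (q + ε) - q) :=
      div_nonneg (by linarith [hm (min 1 (q + ε)) (hq0.trans hlt.le) (min_le_left _ _)])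
        (by linarith)
    rw [← he] at h2
    have h3 : β ^ 2 * (S2 β h c - 1 + c) < 0 := mul_neg_of_pos_of_neg hβ2 h1
    linarith
  have hq : q < 1 := by
    rcases lt_or_eq_of_le hq1 with h1 | h1
    · exact h1
    · exfalso
      have := hA (by rw [h1]; norm_num)
      have h2 := S2_pos β h q
      rw [h1] at this h2
      linarith
  refine ⟨hq, ?_⟩
  rw [tanh_eq]
  have h1 := hB hq
  rcases lt_or_eq_of_le hq0 with h2 | h2
  · have := hA h2
    linarith
  · have h3 := S2_zero_le β h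
    rw [← h2] at h1 ⊢
    linarith

end Pool.TH638.AT
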