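import Pool.Agent.TH198.AT.Conv
import Pool.Agent.TH509.AT.F0
import Pool.Agent.TH891.AT.HEAT
import Pool.Agent.TH479.AT.STEIN
import Pool.Agent.TH811.AT.HEATX

/-!
# AT-PAR2: the explicit solution of the Parisi equation for a two-step distribution function
-/

set_option autoImplicit false

open MeasureTheory ProbabilityTheory Set Filter Topology

namespace Pool.TH638.AT.P2

open Pool.TH198.AT Pool.TH509.AT

lemma heat : St_HEAT := t_HEAT Pool.TH479.AT.t_STEIN

lemma two_mono {q m t : ℝ} (hm0 : 0 < m) (hm1 : m ≤ 1) (hqt : q < t) : Monotone (two q m t) := by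
  intro a b hab
  unfold two
  split_ifs <;> linarith

lemma two_cdf {q m t : ℝ} (hqt : q < t) (ht1 : t ≤ 1) (hm0 : 0 < m) (hm1 : m ≤ 1) :
    IsCdf (two q m t) := by
  refine ⟨(two_mono hm0 hm1 hqt).monotoneOn _, fun s _ => ?_, ?_, fun s _ => ?_⟩
  · unfold two
    split_ifs
    · exact ⟨le_rfl, zero_le_one⟩
    · exact ⟨hm0.le, hm1⟩
    · exact ⟨zero_le_one, le_rfl⟩
  · unfold two
    rw [if_neg (by linarith), if_neg (by linarith)]
  · have key : two q m t =ᶠ[𝓝[Ici s] s] fun _ => two q m t s := by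
      rcases lt_or_ge s q with h | h
      · filter_upwards [mem_nhdsWithin_of_mem_nhds (Iio_mem_nhds h)] with r hr
        unfold two
        rw [if_pos (show r < q from hr), if_pos h]
      · rcases lt_or_ge s t with h2 | h2
        · filter_upwards [self_mem_nhdsWithin, mem_nhdsWithin_of_mem_nhds (Iio_mem_nhds h2)]
            with r hr1 hr2
          unfold two
          rw [if_neg (not_lt.2 (h.trans hr1)), if_pos (show r < t from hr2), if_neg (not_lt.2 h),
            if_pos h2]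
        · filter_upwards [self_mem_nhdsWithin] with r hr1
          unfold two
          rw [if_neg (not_lt.2 (h.trans hr1)), if_neg (not_lt.2 (h2.trans hr1)),
            if_neg (not_lt.2 h), if_neg (not_lt.2 h2)]
    exact continuousWithinAt_const.congr_of_eventuallyEq key rfl

lemma jc {F : ℝ → ℝ → ℝ} {C : ℝ}
    (hF : ContinuousOn (fun p : ℝ × ℝ => F p.1 p.2) (Ici 0 ×ˢ univ))
    (hb : ∀ w x : ℝ, 0 ≤ w → |F w x| ≤ C) {W S : ℝ → ℝ} (hW : Continuous W)
    (hW0 : ∀ s, 0 ≤ W s) (hS : Continuous S) :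
    Continuous (fun p : ℝ × ℝ => E1 (fun y => F (W p.1) (p.2 + S p.1 * y))) := by
  unfold E1
  refine continuous_of_dominated (bound := fun _ => C) ?_ ?_ (integrable_const C) ?_
  · intro p
    have h1 : Continuous fun y : ℝ => ((W p.1, p.2 + S p.1 * y) : ℝ × ℝ) := by fun_prop
    have h2 : Continuous fun y : ℝ => F (W p.1) (p.2 + S p.1 * y) :=
      hF.comp_continuous h1 (fun y => ⟨hW0 _, mem_univ _⟩)
    exact h2.aestronglyMeasurable
  · intro p
    exact Eventually.of_forall fun y => by rw [Real.norm_eq_abs]; exact hb _ _ (hW0 _)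
  · refine Eventually.of_forall fun y => ?_
    have h1 : Continuous fun p : ℝ × ℝ => ((W p.1, p.2 + S p.1 * y) : ℝ × ℝ) := by fun_prop
    exact hF.comp_continuous h1 (fun p => ⟨hW0 _, mem_univ _⟩)

/-- the amount of Cole–Hopf time -/
noncomputable def WW (β q t s : ℝ) : ℝ := 2 * β ^ 2 * max 0 (t - max s q)

/-- the standard deviation of the heat part -/
noncomputable def SS (β q s : ℝ) : ℝ := √(2 * β ^ 2 * (q - s))

lemma WW_cont (β q t : ℝ) : Continuous (WW β q t) := by unfold WW; fun_prop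

lemma SS_cont (β q : ℝ) : Continuous (SS β q) := by unfold SS; fun_prop

lemma WW_nonneg (β q t s : ℝ) : 0 ≤ WW β q t s := by unfold WW; positivity

lemma WW_lt {β q t s : ℝ} (hqt : q < t) (h : s ≤ q) : WW β q t s = 2 * β ^ 2 * (t - q) := by
  unfold WW
  rw [max_eq_right h, max_eq_right (by linarith)]

lemma WW_mid {β q t s : ℝ} (h1 : q ≤ s) (h2 : s ≤ t) : WW β q t s = 2 * β ^ 2 * (t - s) := by
  unfold WW
  rw [max_eq_left h1, max_eq_right (by linarith)]

lemma WW_gt {β q t s : ℝ} (h1 : q ≤ s) (h2 : t ≤ s) : WW β q t s = 0 := by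
  unfold WW
  rw [max_eq_left h1, max_eq_left (by linarith), mul_zero]

lemma SS_zero {β q s : ℝ} (h : q ≤ s) : SS β q s = 0 := sq_zero h

lemma heat_cont {f f1 f2 : ℝ → ℝ} (hf : C2b f f1 f2) (β q x : ℝ) :
    Continuous fun r : ℝ => E1 (fun y => f (x + √(2 * β ^ 2 * (q - r)) * y)) := by
  have h1 : Continuous fun p : ℝ × ℝ => E1 (fun y => f (p.1 + √p.2 * y)) := (heat f f1 f2 hf).2
  have h2 : Continuous fun r : ℝ => ((x, 2 * β ^ 2 * (q - r)) : ℝ × ℝ) := by fun_prop
  exact h1.comp h2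

lemma heat_der {f f1 f2 : ℝ → ℝ} (hf : C2b f f1 f2) {β q r : ℝ} (hβ : 0 < β) (hr : r < q)
    (x : ℝ) :
    HasDerivAt (fun r : ℝ => E1 (fun y => f (x + √(2 * β ^ 2 * (q - r)) * y)))
      (-(β ^ 2 * E1 (fun y => f2 (x + √(2 * β ^ 2 * (q - r)) * y)))) r := by
  have hv : 0 < 2 * β ^ 2 * (q - r) := by
    have : 0 < q - r := by linarith
    positivity
  have h3 : HasDerivAt (fun v => E1 (fun y => f (x + √v * y)))
      (E1 (fun y => f2 (x + √(2 * β ^ 2 * (q - r)) * y)) / 2) (2 * β ^ 2 * (q - r)) :=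
    (heat f f1 f2 hf).1 x (2 * β ^ 2 * (q - r)) hv
  have h4 : HasDerivAt (fun r : ℝ => 2 * β ^ 2 * (q - r)) (-(2 * β ^ 2)) r := by
    have := ((hasDerivAt_id r).const_sub q).const_mul (2 * β ^ 2)
    simpa using this
  refine (h3.comp r h4).congr_deriv ?_
  ring

/-- the solution built from a solution `U` of the Cole–Hopf equation -/
noncomputable def fU (U : ℝ → ℝ → ℝ) (β q t s x : ℝ) : ℝ :=
  if t ≤ s then Real.log (Real.cosh x) + β ^ 2 * (1 - s)
  else if q ≤ s then U (2 * β ^ 2 * (t - s)) x + β ^ 2 * (1 - t)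
  else E1 (fun y => U (2 * β ^ 2 * (t - q)) (x + √(2 * β ^ 2 * (q - s)) * y)) + β ^ 2 * (1 - t)

lemma fU_eq {U : ℝ → ℝ → ℝ} {β q t : ℝ} (hqt : q < t)
    (h0 : ∀ x, U 0 x = Real.log (Real.cosh x)) (s x : ℝ) :
    fU U β q t s x = E1 (fun y => U (WW β q t s) (x + SS β q s * y)) +
      β ^ 2 * (1 - max s t) := by
  unfold fU
  split_ifs with h1 h2
  · rw [WW_gt (hqt.le.trans h1) h1, SS_zero (hqt.le.trans h1), max_eq_left h1]
    simp only [zero_mul, add_zero]
    rw [E1_const, h0]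
  · push Not at h1
    rw [WW_mid h2 h1.le, SS_zero h2, max_eq_right h1.le]
    simp only [zero_mul, add_zero]
    rw [E1_const]
  · push Not at h1 h2
    rw [WW_lt hqt h2.le, max_eq_right h1.le]
    rfl

section gen

variable {U Ux Uxx : ℝ → ℝ → ℝ} {β q m t : ℝ}

lemma cB (hc : ContinuousOn (fun p : ℝ × ℝ => U p.1 p.2) (Ici 0 ×ˢ univ))
    (hneg : ∀ w x : ℝ, w ≤ 0 → U w x = U 0 x) (x : ℝ) :
    Continuous fun r : ℝ => U (2 * β ^ 2 * (t - r)) x := by
  have e : (fun r : ℝ => U (2 * β ^ 2 * (t - r)) x) =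
      fun r => U (max 0 (2 * β ^ 2 * (t - r))) x := by
    funext r
    rcases le_total 0 (2 * β ^ 2 * (t - r)) with h | h
    · rw [max_eq_right h]
    · rw [max_eq_left h, hneg _ _ h]
  have h1 : Continuous fun r : ℝ => ((max 0 (2 * β ^ 2 * (t - r)), x) : ℝ × ℝ) := by fun_prop
  have h3 : ∀ r : ℝ, ((max 0 (2 * β ^ 2 * (t - r)), x) : ℝ × ℝ) ∈ (Ici 0 ×ˢ univ : Set (ℝ × ℝ)) :=
    fun r => ⟨mem_Ici.2 (le_max_left _ _), mem_univ _⟩
  have h2 : Continuous fun r : ℝ => U (max 0 (2 * β ^ 2 * (t - r))) x := hc.comp_continuous h1 h3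
  rw [e]
  exact h2

lemma cΦ (hqt : q < t) (hβ : 0 < β)
    (hc : ContinuousOn (fun p : ℝ × ℝ => U p.1 p.2) (Ici 0 ×ˢ univ))
    (hneg : ∀ w x : ℝ, w ≤ 0 → U w x = U 0 x) (h0 : ∀ x, U 0 x = Real.log (Real.cosh x))
    (hc2b : ∀ w, 0 ≤ w → C2b (U w) (Ux w) (Uxx w)) (x : ℝ) :
    Continuous fun r => fU U β q t r x := by
  have hw0 : (0 : ℝ) ≤ 2 * β ^ 2 * (t - q) := by
    have : 0 < t - q := by linarith
    positivity
  have hA : Continuous fun r : ℝ => Real.log (Real.cosh x) + β ^ 2 * (1 - r) := by fun_prop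
  have hB : Continuous fun r : ℝ => U (2 * β ^ 2 * (t - r)) x + β ^ 2 * (1 - t) :=
    (cB hc hneg x).add continuous_const
  have hC : Continuous fun r : ℝ => E1 (fun y => U (2 * β ^ 2 * (t - q))
      (x + √(2 * β ^ 2 * (q - r)) * y)) + β ^ 2 * (1 - t) :=
    (heat_cont (hc2b _ hw0) β q x).add continuous_const
  unfold fU
  refine Continuous.if_le hA (Continuous.if_le hB hC continuous_const continuous_id ?_)
    continuous_const continuous_id ?_
  · intro r hr
    have hr' : q = r := hr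
    subst hr'
    simp only [sub_self, mul_zero, Real.sqrt_zero, zero_mul, add_zero]
    rw [E1_const]
  · intro r hr
    have hr' : t = r := hr
    subst hr'
    rw [if_pos hqt.le]
    simp only [sub_self, mul_zero]
    rw [h0]

lemma dΦ (hβ : 0 < β) (hqt : q < t)
    (hd : ∀ w x : ℝ, 0 < w → HasDerivAt (fun w => U w x) ((Uxx w x + m * Ux w x ^ 2) / 2) w)
    (h1x : ∀ x, Ux 0 x = Real.tanh x) (h2x : ∀ x, Uxx 0 x = sech x ^ 2)
    (hc2b : ∀ w, 0 ≤ w → C2b (U w) (Ux w) (Uxx w)) (x r : ℝ) (hq : r ≠ q) (ht : r ≠ t) :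
    HasDerivAt (fun r => fU U β q t r x)
        (-(β ^ 2 * (E1 (fun y => Uxx (WW β q t r) (x + SS β q r * y)) + two q m t r *
          E1 (fun y => Ux (WW β q t r) (x + SS β q r * y)) ^ 2))) r := by
  have hw0 : (0 : ℝ) ≤ 2 * β ^ 2 * (t - q) := by
    have : 0 < t - q := by linarith
    positivity
  rcases lt_or_gt_of_ne hq with h1 | h1
  · -- r < q
    have h5 := (heat_der (hc2b _ hw0) hβ h1 x).add_const (β ^ 2 * (1 - t))
    have e1 : (fun r => fU U β q t r x) =ᶠ[𝓝 r] fun r => E1 (fun y =>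
        U (2 * β ^ 2 * (t - q)) (x + √(2 * β ^ 2 * (q - r)) * y)) + β ^ 2 * (1 - t) := by
      filter_upwards [Iio_mem_nhds h1] with u hu
      have hu' : u < q := hu
      unfold fU
      rw [if_neg (by linarith), if_neg (by linarith)]
    refine (h5.congr_of_eventuallyEq e1).congr_deriv ?_
    rw [WW_lt hqt h1.le]
    unfold two SS
    rw [if_pos h1]
    ring
  · rcases lt_or_gt_of_ne ht with h2 | h2
    · -- q < r < t
      have hv : 0 < 2 * β ^ 2 * (t - r) := by
        have : 0 < t - r := by linarith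
        positivity
      have h3 := hd (2 * β ^ 2 * (t - r)) x hv
      have h4 : HasDerivAt (fun r : ℝ => 2 * β ^ 2 * (t - r)) (-(2 * β ^ 2)) r := by
        have := ((hasDerivAt_id r).const_sub t).const_mul (2 * β ^ 2)
        simpa using this
      have h5 := (h3.comp r h4).add_const (β ^ 2 * (1 - t))
      have e1 : (fun r => fU U β q t r x) =ᶠ[𝓝 r] fun r =>
          U (2 * β ^ 2 * (t - r)) x + β ^ 2 * (1 - t) := by
        filter_upwards [Iio_mem_nhds h2, Ioi_mem_nhds h1] with u hu hu2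
        unfold fU
        rw [if_neg (not_le.2 hu), if_pos (le_of_lt hu2)]
      refine (HasDerivAt.congr_of_eventuallyEq h5 e1).congr_deriv ?_
      rw [WW_mid h1.le h2.le, SS_zero h1.le]
      simp only [zero_mul, add_zero]
      rw [E1_const, E1_const]
      unfold two
      rw [if_neg (not_lt.2 h1.le), if_pos h2]
      ring
    · -- t < r
      have h4 : HasDerivAt (fun r : ℝ => Real.log (Real.cosh x) + β ^ 2 * (1 - r))
          (-(β ^ 2)) r := by
        have := (((hasDerivAt_id r).const_sub 1).const_mul (β ^ 2)).const_add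
          (Real.log (Real.cosh x))
        simpa using this
      have e1 : (fun r => fU U β q t r x) =ᶠ[𝓝 r] fun r =>
          Real.log (Real.cosh x) + β ^ 2 * (1 - r) := by
        filter_upwards [Ioi_mem_nhds h2] with u hu
        unfold fU
        rw [if_pos (le_of_lt hu)]
      refine (HasDerivAt.congr_of_eventuallyEq h4 e1).congr_deriv ?_
      rw [WW_gt h1.le h2.le, SS_zero h1.le]
      simp only [zero_mul, add_zero]
      rw [E1_const, E1_const, h1x, h2x]
      unfold two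
      rw [if_neg (not_lt.2 h1.le), if_neg (not_lt.2 h2.le), one_mul, sech_tanh]
      ring

theorem gen (hβ : 0 < β) (hqt : q < t) (ht1 : t ≤ 1) (hm0 : 0 < m) (hm1 : m ≤ 1)
    (hneg : ∀ w x : ℝ, w ≤ 0 → U w x = U 0 x)
    (hd : ∀ w x : ℝ, 0 ≤ w → HasDerivAt (U w) (Ux w x) x ∧ HasDerivAt (Ux w) (Uxx w x) x)
    (hdw : ∀ w x : ℝ, 0 < w → HasDerivAt (fun w => U w x) ((Uxx w x + m * Ux w x ^ 2) / 2) w)
    (hc : ContinuousOn (fun p : ℝ × ℝ => U p.1 p.2) (Ici 0 ×ˢ univ))
    (hcx : ContinuousOn (fun p : ℝ × ℝ => Ux p.1 p.2) (Ici 0 ×ˢ univ))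
    (hcxx : ContinuousOn (fun p : ℝ × ℝ => Uxx p.1 p.2) (Ici 0 ×ˢ univ))
    (hb : ∀ w x : ℝ, 0 ≤ w → |Ux w x| ≤ 1 ∧ |Uxx w x| ≤ 3)
    (h0 : ∀ x : ℝ, U 0 x = Real.log (Real.cosh x) ∧ Ux 0 x = Real.tanh x ∧
      Uxx 0 x = sech x ^ 2) :
    IsParisi β (two q m t) (fU U β q t) := by
  have hU0 : ∀ x, U 0 x = Real.log (Real.cosh x) := fun x => (h0 x).1
  have hUxc : ∀ w, 0 ≤ w → Continuous (Ux w) := fun w hw =>
    continuous_iff_continuousAt.2 fun x => (hd w x hw).2.continuousAt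
  have hUxxc : ∀ w, 0 ≤ w → Continuous (Uxx w) := fun w hw =>
    hcxx.comp_continuous (by fun_prop : Continuous fun x : ℝ => ((w, x) : ℝ × ℝ))
      (fun x => ⟨hw, mem_univ _⟩)
  have hc2b : ∀ w, 0 ≤ w → C2b (U w) (Ux w) (Uxx w) := fun w hw =>
    ⟨fun x => (hd w x hw).1, fun x => (hd w x hw).2, hUxxc w hw, 3, fun x =>
      ⟨(hb w x hw).1.trans (by norm_num), (hb w x hw).2⟩⟩
  have hfxc := jc hcx (fun w x hw => (hb w x hw).1) (WW_cont β q t) (WW_nonneg β q t) (SS_cont β q)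
  have hfxxc := jc hcxx (fun w x hw => (hb w x hw).2) (WW_cont β q t) (WW_nonneg β q t)
    (SS_cont β q)
  refine ⟨fun s x => E1 (fun y => Ux (WW β q t s) (x + SS β q s * y)),
    fun s x => E1 (fun y => Uxx (WW β q t s) (x + SS β q s * y)), ?_, hfxc.continuousOn,
    hfxxc.continuousOn, ⟨3, fun s _ x => ⟨?_, ?_⟩⟩, ?_⟩
  · intro s _ x
    have hw := WW_nonneg β q t s
    constructor
    · have h1 := Pool.TH811.AT.t_HEATX (U (WW β q t s)) (Ux (WW β q t s)) 1
        (fun x => (hd _ x hw).1) (hUxc _ hw) (fun x => (hb _ x hw).1) (SS β q s) x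
      have e : fU U β q t s = fun x => E1 (fun y => U (WW β q t s) (x + SS β q s * y)) +
          β ^ 2 * (1 - max s t) := funext fun x => fU_eq hqt hU0 s x
      rw [e]
      exact h1.add_const _
    · exact Pool.TH811.AT.t_HEATX (Ux (WW β q t s)) (Uxx (WW β q t s)) 3
        (fun x => (hd _ x hw).2) (hUxxc _ hw) (fun x => (hb _ x hw).2) (SS β q s) x
  · exact E1_abs_le fun y => (hb _ _ (WW_nonneg _ _ _ _)).1.trans (by norm_num)
  · exact E1_abs_le fun y => (hb _ _ (WW_nonneg _ _ _ _)).2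
  · intro s hs x
    have hΦ := cΦ hqt hβ hc hneg hU0 hc2b x
    have hfx1 : Continuous fun r : ℝ => E1 (fun y => Ux (WW β q t r) (x + SS β q r * y)) :=
      hfxc.comp (by fun_prop : Continuous fun r : ℝ => ((r, x) : ℝ × ℝ))
    have hfxx1 : Continuous fun r : ℝ => E1 (fun y => Uxx (WW β q t r) (x + SS β q r * y)) :=
      hfxxc.comp (by fun_prop : Continuous fun r : ℝ => ((r, x) : ℝ × ℝ))
    have hint : IntervalIntegrable (fun r => β ^ 2 *
        (E1 (fun y => Uxx (WW β q t r) (x + SS β q r * y)) + two q m t r *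
          E1 (fun y => Ux (WW β q t r) (x + SS β q r * y)) ^ 2)) volume s 1 := by
      refine ((hfxx1.intervalIntegrable _ _).add ?_).const_mul _
      exact ((two_mono hm0 hm1 hqt).intervalIntegrable).mul_continuousOn (hfx1.pow 2).continuousOn
    have hftc := MeasureTheory.integral_eq_of_hasDerivAt_off_countable_of_le
      (fun r => fU U β q t r x) (fun r => -(β ^ 2 *
        (E1 (fun y => Uxx (WW β q t r) (x + SS β q r * y)) + two q m t r *
          E1 (fun y => Ux (WW β q t r) (x + SS β q r * y)) ^ 2))) hs.2 (s := {q, t})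
      (Set.toFinite _).countable hΦ.continuousOn (by
        rintro r ⟨hr, hne⟩
        simp only [mem_insert_iff, mem_singleton_iff, not_or] at hne
        exact dΦ hβ hqt hdw (fun x => (h0 x).2.1) (fun x => (h0 x).2.2) hc2b x r hne.1 hne.2)
      hint.neg
    have hend : fU U β q t 1 x = Real.log (Real.cosh x) := by
      unfold fU
      rw [if_pos ht1]
      ring
    rw [intervalIntegral.integral_neg, hend] at hftc
    linarith

end gen

lemma UH_neg (m w x : ℝ) (h : w ≤ 0) : UH m w x = UH m 0 x := by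
  unfold UH
  rw [Real.sqrt_eq_zero_of_nonpos h, Real.sqrt_zero]

lemma f2_eq_fU (β q m t : ℝ) : f2 β q m t = fU (UH m) β q t := by
  funext s x
  unfold f2 fU
  rfl

theorem t_PAR2 (hCH : St_CH) : St_PAR2 := by
  intro β q m t hβ hq0 hqt ht1 hm0 hm1
  refine ⟨two_cdf hqt ht1 hm0 hm1, ?_⟩
  obtain ⟨Ux, Uxx, hd, hdw, hc, hcx, hcxx, hb, h0⟩ := hCH m hm0 hm1
  rw [f2_eq_fU]
  exact gen hβ hqt ht1 hm0 hm1 (fun w x h => UH_neg m w x h) hd hdw hc hcx hcxx hb h0

end Pool.TH638.AT.P2
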